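import Mathlib

set_option autoImplicit false

/-! # The differential ring of smooth functions on an open subset of `ℝⁿ` -/

namespace Pool.Agent.Q185.DR

open scoped ContDiff

variable {n : ℕ}

/-- Extension by zero. -/
noncomputable def ext (U : TopologicalSpace.Opens (Fin n → ℝ)) (f : U → ℝ) (q : Fin n → ℝ) : ℝ :=
  open Classical in if h : q ∈ U then f ⟨q, h⟩ else 0

variable {U : TopologicalSpace.Opens (Fin n → ℝ)}

theorem ext_of_mem (f : U → ℝ) {q : Fin n → ℝ} (h : q ∈ U) : ext U f q = f ⟨q, h⟩ := dif_pos h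

theorem ext_coe (f : U → ℝ) (q : U) : ext U f q = f q := dif_pos q.2

theorem eventually_of_eqOn {F G : (Fin n → ℝ) → ℝ} (h : ∀ q ∈ U, F q = G q) {q : Fin n → ℝ}
    (hq : q ∈ U) : F =ᶠ[nhds q] G := by
  filter_upwards [U.isOpen.mem_nhds hq] with x hx
  exact h x hx

variable (U) in
/-- Smooth functions on `U`. -/
noncomputable def Sm : Subalgebra ℝ (U → ℝ) where
  carrier := {f | ContDiffOn ℝ ∞ (ext U f) U}
  mul_mem' := by
    intro f g hf hg
    refine (ContDiffOn.mul hf hg).congr fun q hq => ?_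
    change q ∈ U at hq
    rw [ext_of_mem _ hq, ext_of_mem _ hq, ext_of_mem _ hq]
    rfl
  add_mem' := by
    intro f g hf hg
    refine (ContDiffOn.add hf hg).congr fun q hq => ?_
    change q ∈ U at hq
    rw [ext_of_mem _ hq, ext_of_mem _ hq, ext_of_mem _ hq]
    rfl
  algebraMap_mem' := by
    intro r
    refine (contDiffOn_const (c := r)).congr fun q hq => ?_
    change q ∈ U at hq
    rw [ext_of_mem _ hq]
    rfl

theorem smooth (f : Sm U) : ContDiffOn ℝ ∞ (ext U f.1) U := f.2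

/-- Restriction of a smooth function. -/
noncomputable def res (F : (Fin n → ℝ) → ℝ) (hF : ContDiffOn ℝ ∞ F U) : Sm U :=
  ⟨fun q => F q, by
    refine hF.congr fun q hq => ?_
    change q ∈ U at hq
    rw [ext_of_mem _ hq]⟩

theorem res_apply (F : (Fin n → ℝ) → ℝ) (hF : ContDiffOn ℝ ∞ F U) (q : U) :
    (res F hF).1 q = F q := rfl

theorem contDiffOn_pderiv {F : (Fin n → ℝ) → ℝ} (hF : ContDiffOn ℝ ∞ F U) (i : Fin n) :
    ContDiffOn ℝ ∞ (fun q => fderiv ℝ F q (Pi.single i 1)) U := by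
  have h1 : ContDiffOn ℝ ∞ (fderiv ℝ F) U := by
    refine (contDiffOn_infty_iff_fderiv_of_isOpen U.isOpen).mp hF |>.2
  exact h1.clm_apply contDiffOn_const

/-- Partial derivatives. -/
noncomputable def D (i : Fin n) (f : Sm U) : Sm U :=
  res (fun q => fderiv ℝ (ext U f.1) q (Pi.single i 1)) (contDiffOn_pderiv f.2 i)

theorem D_apply (i : Fin n) (f : Sm U) (q : U) :
    (D i f).1 q = fderiv ℝ (ext U f.1) q (Pi.single i 1) := rfl

theorem diffAt (f : Sm U) (q : U) : DifferentiableAt ℝ (ext U f.1) q :=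
  ((smooth f).contDiffAt (U.isOpen.mem_nhds q.2)).differentiableAt (by simp)

theorem fderiv_congr {F G : (Fin n → ℝ) → ℝ} (h : ∀ q ∈ U, F q = G q) (q : U) :
    fderiv ℝ F q = fderiv ℝ G q := (eventually_of_eqOn h q.2).fderiv_eq

theorem D_res (i : Fin n) (F : (Fin n → ℝ) → ℝ) (hF : ContDiffOn ℝ ∞ F U) (q : U) :
    (D i (res F hF)).1 q = fderiv ℝ F q (Pi.single i 1) := by
  rw [D_apply]
  rw [fderiv_congr (G := F)]
  intro x hx
  rw [ext_of_mem _ hx]
  rfl

theorem Sm_ext {f g : Sm U} (h : ∀ q : U, f.1 q = g.1 q) : f = g := Subtype.ext (funext h)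

@[simp] theorem D_add (i : Fin n) (f g : Sm U) : D i (f + g) = D i f + D i g := by
  apply Sm_ext
  intro q
  change (D i (f + g)).1 q = (D i f).1 q + (D i g).1 q
  rw [D_apply, D_apply, D_apply]
  have h : ∀ x ∈ U, ext U (f + g).1 x = (ext U f.1 + ext U g.1) x := by
    intro x hx
    rw [Pi.add_apply, ext_of_mem _ hx, ext_of_mem _ hx, ext_of_mem _ hx]
    rfl
  rw [fderiv_congr h, fderiv_add (diffAt f q) (diffAt g q)]
  rfl

@[simp] theorem D_mul (i : Fin n) (f g : Sm U) : D i (f * g) = D i f * g + f * D i g := by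
  apply Sm_ext
  intro q
  change (D i (f * g)).1 q = (D i f).1 q * g.1 q + f.1 q * (D i g).1 q
  rw [D_apply, D_apply, D_apply]
  have h : ∀ x ∈ U, ext U (f * g).1 x = (ext U f.1 * ext U g.1) x := by
    intro x hx
    rw [Pi.mul_apply, ext_of_mem _ hx, ext_of_mem _ hx, ext_of_mem _ hx]
    rfl
  rw [fderiv_congr h, fderiv_mul (diffAt f q) (diffAt g q)]
  change (ext U f.1 q • fderiv ℝ (ext U g.1) q + ext U g.1 q • fderiv ℝ (ext U f.1) q)
    (Pi.single i 1) = _
  rw [add_apply, smul_apply, smul_apply, smul_eq_mul, smul_eq_mul, ext_coe, ext_coe]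
  ring

@[simp] theorem D_algebraMap (i : Fin n) (r : ℝ) : D i (algebraMap ℝ (Sm U) r) = 0 := by
  apply Sm_ext
  intro q
  rw [D_apply]
  have h : ∀ x ∈ U, ext U (algebraMap ℝ (Sm U) r).1 x = (fun _ => r) x := by
    intro x hx
    rw [ext_of_mem _ hx]
    rfl
  rw [fderiv_congr h, fderiv_const_apply]
  rfl

/-- Partial derivatives as derivations. -/
noncomputable def Der (i : Fin n) : Derivation ℝ (Sm U) (Sm U) :=
  Derivation.mk' {
      toFun := D i
      map_add' := D_add i
      map_smul' := fun r f => by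
        rw [Algebra.smul_def, D_mul, D_algebraMap, zero_mul, zero_add, RingHom.id_apply,
          Algebra.smul_def] } (fun f g => by
    change D i (f * g) = f • D i g + g • D i f
    rw [D_mul, smul_eq_mul, smul_eq_mul]; ring)

theorem Der_apply (i : Fin n) (f : Sm U) : Der i f = D i f := rfl

@[simp] theorem D_zero (i : Fin n) : D i (0 : Sm U) = 0 := map_zero (Der i)
@[simp] theorem D_one (i : Fin n) : D i (1 : Sm U) = 0 := by
  have := D_algebraMap (U := U) i 1
  rwa [map_one] at this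
@[simp] theorem D_neg (i : Fin n) (f : Sm U) : D i (-f) = -D i f := map_neg (Der i) f
@[simp] theorem D_sub (i : Fin n) (f g : Sm U) : D i (f - g) = D i f - D i g :=
  map_sub (Der i) f g
@[simp] theorem D_pow (i : Fin n) (f : Sm U) (k : ℕ) :
    D i (f ^ k) = k * f ^ (k - 1) * D i f := by
  have := (Der i).leibniz_pow f k
  rw [Der_apply, Der_apply] at this
  rw [this, smul_eq_mul, nsmul_eq_mul]
  ring
@[simp] theorem D_natCast (i : Fin n) (k : ℕ) : D i (k : Sm U) = 0 := (Der i).map_natCast k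
@[simp] theorem D_ofNat (i : Fin n) (k : ℕ) [k.AtLeastTwo] :
    D i (ofNat(k) : Sm U) = 0 := (Der i).map_natCast k

theorem D_smul (i : Fin n) (r : ℝ) (f : Sm U) : D i (r • f) = r • D i f := (Der i).map_smul r f

theorem D_comm (i j : Fin n) (f : Sm U) : D i (D j f) = D j (D i f) := by
  apply Sm_ext
  intro q
  have hc : ContDiffAt ℝ ∞ (ext U f.1) q := (smooth f).contDiffAt (U.isOpen.mem_nhds q.2)
  have hsym : IsSymmSndFDerivAt ℝ (ext U f.1) q := hc.isSymmSndFDerivAt (by simp only [minSmoothness_of_isRCLikeNormedField]; exact WithTop.coe_le_coe.mpr le_top)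
  have hd : DifferentiableAt ℝ (fderiv ℝ (ext U f.1)) q := by
    have h1 : ContDiffOn ℝ ∞ (fderiv ℝ (ext U f.1)) U :=
      ((contDiffOn_infty_iff_fderiv_of_isOpen U.isOpen).mp (smooth f)).2
    exact (h1.contDiffAt (U.isOpen.mem_nhds q.2)).differentiableAt (by simp)
  have key : ∀ a b : Fin n, (D a (D b f)).1 q =
      fderiv ℝ (fderiv ℝ (ext U f.1)) q (Pi.single a 1) (Pi.single b 1) := by
    intro a b
    rw [D_apply]
    have h : ∀ x ∈ U, ext U (D b f).1 x = (fun x => fderiv ℝ (ext U f.1) x (Pi.single b 1)) x := by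
      intro x hx
      rw [ext_of_mem _ hx]
      rfl
    rw [fderiv_congr h]
    have h2 := (ContinuousLinearMap.apply ℝ ℝ (Pi.single b 1 : Fin n → ℝ)).hasFDerivAt.comp
      (q : Fin n → ℝ) hd.hasFDerivAt
    have h3 : fderiv ℝ (fun x => fderiv ℝ (ext U f.1) x (Pi.single b 1)) q =
      (ContinuousLinearMap.apply ℝ ℝ (Pi.single b 1 : Fin n → ℝ)).comp
        (fderiv ℝ (fderiv ℝ (ext U f.1)) q) := h2.fderiv
    rw [h3]
    rfl
  rw [key, key]
  exact hsym _ _

/-- Coordinate functions. -/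
noncomputable def X (i : Fin n) : Sm U := res (fun q => q i) (by fun_prop)

theorem X_apply (i : Fin n) (q : U) : (X i : Sm U).1 q = q.1 i := rfl

theorem D_X (i j : Fin n) : D i (X j : Sm U) = if i = j then 1 else 0 := by
  apply Sm_ext
  intro q
  unfold X
  rw [D_res]
  have h : HasFDerivAt (fun q : Fin n → ℝ => q j) (ContinuousLinearMap.proj j) q :=
    (ContinuousLinearMap.proj (R := ℝ) (φ := fun _ : Fin n => ℝ) j).hasFDerivAt
  rw [h.fderiv]
  simp only [ContinuousLinearMap.proj_apply]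
  split_ifs with h
  · rw [h, Pi.single_eq_same]; rfl
  · rw [Pi.single_eq_of_ne (fun hh => h hh.symm)]; rfl

/-- Composition with a smooth function of one variable. -/
noncomputable def comp (h : ℝ → ℝ) (hh : ContDiff ℝ ∞ h) (f : Sm U) : Sm U :=
  res (fun q => h (ext U f.1 q)) (hh.comp_contDiffOn f.2)

theorem comp_apply (h : ℝ → ℝ) (hh : ContDiff ℝ ∞ h) (f : Sm U) (q : U) :
    (comp h hh f).1 q = h (f.1 q) := by
  unfold comp
  rw [res_apply, ext_coe]

theorem D_comp (i : Fin n) (h : ℝ → ℝ) (hh : ContDiff ℝ ∞ h) (f : Sm U) :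
    D i (comp h hh f) = comp (deriv h) ((contDiff_infty_iff_deriv.mp hh).2) f * D i f := by
  apply Sm_ext
  intro q
  unfold comp
  rw [D_res]
  change _ = (deriv h (ext U f.1 q)) * (D i f).1 q
  rw [D_apply]
  have h1 : HasDerivAt h (deriv h (ext U f.1 q)) (ext U f.1 q) :=
    (hh.differentiable (by simp) _).hasDerivAt
  have h2 := h1.comp_hasFDerivAt (q : Fin n → ℝ) (diffAt f q).hasFDerivAt
  have h3 : fderiv ℝ (fun q => h (ext U f.1 q)) q =
    deriv h (ext U f.1 q) • fderiv ℝ (ext U f.1) q := h2.fderiv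
  rw [h3]
  rfl

/-- A function with vanishing partial derivatives near a point, evaluated. -/
theorem eq_zero_iff {f : Sm U} : f = 0 ↔ ∀ q : U, f.1 q = 0 := by
  constructor
  · rintro rfl q; rfl
  · intro h; exact Sm_ext h

end Pool.Agent.Q185.DR
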